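import Pool.Agent.Q36.PF.Tp

/-!
Forms of lower degree on varieties dominated by varieties with maps to products.
-/

set_option autoImplicit false
set_option linter.overlappingInstances false
set_option linter.unusedSectionVars false

open Polynomial FF IsDedekindDomain IntermediateField
open Pool.Agent.W602.GT Pool.Agent.W603.LV Pool.Agent.W619.PQ Pool.Agent.W619.TW
  Pool.Agent.Y172 Pool.Agent.Y692.NT Pool.Agent.W619.Y Q36.GV Q36.PT Q36.SD Q36.HB

namespace Q36.PF

section

variable {k M : Type} [Field k] [CharZero k] [Field M] [Algebra k M]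
  {s : ℕ} {d : Fin s → ℕ} (F : Fin s → IntermediateField k M)

theorem ygood_coords (y : ∀ i, Fin (d i) → F i) (f : ∀ i, F i) (w : Place k M)
    (h : ∀ i, YGood (d i) 1 w (fun l => (y i l : M)) (f i : M)) :
    YGood (∑ i, d i) 1 w (coords F y) (∏ i, (f i : M)) := by
  classical
  choose Z z hz hZ hA using h
  refine ⟨(Matrix.blockDiagonal' Z).submatrix finSigmaFinEquiv.symm finSigmaFinEquiv.symm,
    fun b => z (finSigmaFinEquiv.symm b).1 (finSigmaFinEquiv.symm b).2, fun b => hz _ _,
    fun D b => ?_, ?_⟩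
  · obtain ⟨⟨i, l⟩, rfl⟩ := (finSigmaFinEquiv (n := d)).surjective b
    unfold coords
    rw [Equiv.symm_apply_apply, ← (finSigmaFinEquiv (n := d)).sum_comp]
    rw [Fintype.sum_sigma, Finset.sum_eq_single i]
    · rw [hZ]
      refine Finset.sum_congr rfl fun c _ => ?_
      rw [Matrix.submatrix_apply, Equiv.symm_apply_apply, Equiv.symm_apply_apply,
        Matrix.blockDiagonal'_apply_eq]
      change _ = Z i l c * D (z (finSigmaFinEquiv.symm (finSigmaFinEquiv ⟨i, c⟩)).1
        (finSigmaFinEquiv.symm (finSigmaFinEquiv ⟨i, c⟩)).2)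
      rw [Equiv.symm_apply_apply]
    · intro j _ hj
      refine Finset.sum_eq_zero fun c _ => ?_
      rw [Matrix.submatrix_apply, Equiv.symm_apply_apply, Equiv.symm_apply_apply,
        Matrix.blockDiagonal'_apply_ne _ _ _ (Ne.symm hj), zero_mul]
    · intro h
      exact absurd (Finset.mem_univ i) h
  · have h1 : Ge w (∑ _i : Fin s, (0 : ℤ)) (∏ i, ((f i : M) * (Z i).det ^ 1)) :=
      Ge.prod _ _ _ fun i _ => hA i
    rw [Matrix.det_submatrix_equiv_self, det_block, ← Finset.prod_pow, ← Finset.prod_mul_distrib]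
    simpa using h1

end

section

variable {k M : Type} [Field k] [CharZero k] [Field M] [Algebra k M] {n p : ℕ}

/-- a nonzero minor -/
theorem minor_ne (hn : Algebra.trdeg k M = n) {t : Fin p → M} (ht : AlgebraicIndependent k t)
    {x : Fin n → M} (hx : IsTranscendenceBasis k x) {E : Fin n → Derivation k M M}
    (hE : ∀ i j, E i (x j) = if i = j then 1 else 0) :
    ∃ r : Fin p → Fin n, (Matrix.of fun a b => E (r a) (t b)).det ≠ 0 := by
  classical
  by_contra hcon
  push Not at hcon
  obtain ⟨y, hy, g, hg, hyt⟩ := extend_basis hn ht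
  obtain ⟨G, hG⟩ := Pool.Agent.W636.PG.exists_duals k M n y hy
  have h1 : ∀ a b, G (g a) (t b) = if a = b then 1 else 0 := by
    intro a b
    rw [← hyt, hG]
    by_cases hab : a = b
    · rw [if_pos hab, if_pos (by rw [hab])]
    · rw [if_neg hab, if_neg fun h => hab (hg h)]
  have h2 : (fun a => (fun b => G (g a) (t b) : Fin p → M)) =
      fun a => ∑ j, G (g a) (x j) • (fun b => E j (t b) : Fin p → M) := by
    funext a b
    have h3 := Pool.Agent.W73.PG.PULL.expand x hx E hE (G (g a))
    conv_lhs => rw [← h3]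
    rw [Pool.Agent.Y172.sum_smul_apply, Finset.sum_apply]
    rfl
  have h3 : (Matrix.of fun a b => G (g a) (t b)).det = 0 := by
    have h4 := MultilinearMap.map_sum (Matrix.detRowAlternating (n := Fin p) (R := M)).toMultilinearMap
      (fun a (j : Fin n) => G (g a) (x j) • (fun b => E j (t b) : Fin p → M))
    rw [← h2] at h4
    have h5 : (Matrix.of fun a b => G (g a) (t b)).det =
        (Matrix.detRowAlternating (n := Fin p) (R := M)).toMultilinearMap
          (fun a => (fun b => G (g a) (t b) : Fin p → M)) := rfl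
    rw [h5, h4]
    refine Finset.sum_eq_zero fun r _ => ?_
    have h6 := MultilinearMap.map_smul_univ
      (Matrix.detRowAlternating (n := Fin p) (R := M)).toMultilinearMap
      (fun a => G (g a) (x (r a))) (fun a => (fun b => E (r a) (t b) : Fin p → M))
    rw [h6]
    have h7 : (Matrix.detRowAlternating (n := Fin p) (R := M)).toMultilinearMap
      (fun a => (fun b => E (r a) (t b) : Fin p → M)) = 0 := hcon r
    rw [h7, smul_zero]
  have h4 : (Matrix.of fun a b => G (g a) (t b)) = 1 := by
    ext a b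
    rw [Matrix.of_apply, h1, Matrix.one_apply]
  rw [h4, Matrix.det_one] at h3
  exact one_ne_zero h3

/-- a regular form of degree `p` which is not zero -/
def HasForm (k K : Type) [Field k] [Field K] [Algebra k K] (n p : ℕ) : Prop :=
  ∃ ω : (Derivation k K K) [⋀^Fin p]→ₗ[K] K,
    (∀ v : Place k K, IsDivisorial v n → ∀ D : Fin p → Derivation k K K,
      (∀ j, ∀ f, v.Reg f → v.Reg (D j f)) → v.Reg (ω D)) ∧ ω ≠ 0

end

section

variable {k L M : Type} [Field k] [CharZero k] [Field L] [Field M]
  [Algebra k L] [Algebra k M] [Algebra L M] [IsScalarTower k L M] [FiniteDimensional L M]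
  [Algebra.EssFiniteType k L] {s : ℕ} {d : Fin s → ℕ} (F : Fin s → IntermediateField k M)
  [∀ i, Algebra.EssFiniteType k (F i)] {n : ℕ}

/-- **Forms of lower degree**, when the variety is the closure of the image in the product. -/
theorem form_pos1 (hn : Algebra.trdeg k L = n) (hd : ∀ i, Algebra.trdeg k (F i) = d i)
    (hind : ∀ t : ∀ i, Fin (d i) → F i, (∀ i, IsTranscendenceBasis k (t i)) →
      AlgebraicIndependent k (coords F t))
    {m : Fin s → ℕ} (hm1 : ∀ i, 1 ≤ m i) (hV : ∀ i, CanSep k (F i) (d i) (m i))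
    (B : Finset (Fin s))
    (hB : ∀ i ∈ B, Module.finrank L (IntermediateField.adjoin L (F i : Set M)) ≤ m i)
    (hQ : ∀ Q : Finset (Fin s), Disjoint Q B →
      Module.finrank (IntermediateField.adjoin L {z : M | ∃ j, j ∉ Q ∧ z ∈ F j}) M ≤
        1 + ∑ j ∈ Q, (m j - 1)) : HasForm k L n (∑ i, d i) := by
  classical
  have hessM : Algebra.EssFiniteType k M := ess_up k L M
  have hnM : Algebra.trdeg k M = n := trdeg_up (K := L) hn
  obtain ⟨y, E, hy, hE⟩ := Pool.Agent.Y172.exists_crd (k := k) (K := L) hn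
  obtain ⟨e, he⟩ := exists_ext (k := k) (K := L) (L := M) hn
  have hEd := Pool.Agent.Y172.lift_dual (L := M) hE (E' := fun i => e (E i)) fun i f => he _ _
  choose t D ht hD using fun i => Pool.Agent.Y172.exists_crd (hd i)
  have hti := hind t ht
  obtain ⟨r, hr⟩ := minor_ne hnM hti (hy.algebraMap_comp (A := M)) hEd
  by_contra hneg
  refine hr (elim_hall_oneV F hm1 (fun i => CanF k (d i) (D i))
    (fun i => hV i (t i) (D i) (ht i) (hD i)) B hB hQ _ fun f hf => ?_)
  by_contra hne
  refine hneg ⟨{ ptr e (∏ i, (f i : M)) (coords F t) with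
    map_eq_zero_of_eq' := ?_ }, ?_, fun h0 => hne ?_⟩
  · intro v i j hij hne
    change ptr e (∏ i, (f i : M)) (coords F t) v = 0
    have h1 : (Matrix.of fun a b => e (v a) (coords F t b)).det = 0 :=
      Matrix.det_zero_of_row_eq hne (by
        funext j
        rw [Matrix.of_apply, Matrix.of_apply, hij])
    rw [ptr_apply, h1, mul_zero, map_zero]
  · intro v hv G hG
    refine ptr_reg (L := M) hn he hv (fun Q e0 hQ => ?_) G hG
    have hQd : Divisorial n Q := divisorial_up hQ hv
    refine ygood_coords F t f Q fun i => ?_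
    obtain ⟨η, h1, h2, h3⟩ := hf i
    have h4 := pYLOC.{0, 0} k M (F i) (d i) n 1 (hd i) hnM
      (fun y hy => Pool.Agent.Y172.fd_basis hy) η h1 h2 (t i) (D i) (ht i) (hD i) Q hQd
    rw [h3] at h4
    exact h4
  · have h1 : ptr e (∏ i, (f i : M)) (coords F t) (fun a => E (r a)) = 0 :=
      congrArg (fun ω : (Derivation k L L) [⋀^Fin (∑ i, d i)]→ₗ[L] L => ω fun a => E (r a)) h0
    rw [ptr_apply, mul_comm] at h1
    exact h1

end

end Q36.PF
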