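import Pool.Agent.Q36.PF.Rc

/-!
Mumford's problem for dominated varieties.
-/

set_option autoImplicit false
set_option linter.overlappingInstances false
set_option linter.unusedSectionVars false

open Polynomial FF IsDedekindDomain IntermediateField
open Pool.Agent.W602.GT Pool.Agent.W603.LV Pool.Agent.W619.PQ Pool.Agent.W619.TW
  Pool.Agent.Y172 Pool.Agent.Y692.NT Pool.Agent.W619.Y Q36.GV Q36.PT Q36.SD Q36.HB

namespace Q36.PF

section

variable {k K : Type} [Field k] [Field K] [Algebra k K] {n p : ℕ}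

theorem not_vanish (hp : 1 ≤ p) (h : HasForm k K n p) : ¬ TensorVanish k K n := by
  obtain ⟨ω, h1, h2⟩ := h
  intro hT
  apply h2
  have h3 := hT p hp ω.toMultilinearMap h1
  ext D
  exact congrArg (fun η : MultilinearMap K (fun _ : Fin p => Derivation k K K) K => η D) h3

theorem unirational_sub {M : Type} [Field M] [Algebra k M] [Algebra K M] [IsScalarTower k K M]
    (h : IsUnirational k M n) : IsUnirational k K n := by
  obtain ⟨f⟩ := h
  exact ⟨f.comp (IsScalarTower.toAlgHom k K M)⟩

end

section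

variable {k L M : Type} [Field k] [CharZero k] [IsAlgClosed k] [Field L] [Field M]
  [Algebra k L] [Algebra k M] [Algebra L M] [IsScalarTower k L M] [FiniteDimensional L M]
  [Algebra.EssFiniteType k M] {s : ℕ} {d : Fin s → ℕ} (F : Fin s → IntermediateField k M)
  [∀ i, Algebra.EssFiniteType k (F i)] {n : ℕ}

/-- curves separate points -/
theorem canSep_gon {W : IntermediateField k M} {d m : ℕ} (hd : Algebra.trdeg k W = d)
    (hW : IsFF k W) (hγ : ∀ b : W, Transcendental k b → m + 1 ≤ Module.finrank k⟮b⟯ W) :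
    CanSep k W d m := by
  have h3 : d = 1 := by
    have h4 := IsFF.trdeg (k := k) (K := W)
    rw [hd] at h4
    exact_mod_cast h4
  subst h3
  exact (sep_curve hγ).canSep

/-- **The main theorem on forms.** -/
theorem main_form (hn : Algebra.trdeg k M = n) (hd : ∀ i, Algebra.trdeg k (F i) = d i)
    (hsup : Algebra.trdeg k (⨆ i, F i : IntermediateField k M) = (∑ i, d i : ℕ))
    {m : Fin s → ℕ} (hm1 : ∀ i, 1 ≤ m i)
    (hV : ∀ i, CanSep k (F i) (d i) (m i) ∨ (IsFF k (F i) ∧
      ∀ b : F i, Transcendental k b → m i + 1 ≤ Module.finrank k⟮b⟯ (F i)))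
    (B : Finset (Fin s))
    (hB : ∀ i ∈ B, Module.finrank L (IntermediateField.adjoin L (F i : Set M)) ≤ m i)
    (hQ : ∀ Q : Finset (Fin s), Disjoint Q B →
      Module.finrank (IntermediateField.adjoin L {z : M | ∃ j, j ∉ Q ∧ z ∈ F j}) M ≤
        (1 + ∑ j ∈ Q, (m j - 1)) *
          Module.finrank (IntermediateField.adjoin L {z : M | ∃ j, z ∈ F j}) M) :
    HasForm k L n (∑ i, d i) ∧ (IsUnirational k M n ∨ 0 < ∑ i, d i →
      TensorVanish k L n ∨ RatConn k L n → IsUnirational k M n ∧ IsUnirational k L n) := by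
  have hessL : Algebra.EssFiniteType k L := Q36.SD.ess_below (K := M)
  have hnL : Algebra.trdeg k L = n := Q36.SD.trdeg_below (K := M) hn
  have h1 : HasForm k L n (∑ i, d i) := by
    refine form_pos F hnL hd hsup hm1 (fun i => ?_) B hB hQ
    rcases hV i with h | ⟨h2, h3⟩
    · exact h
    · exact canSep_gon (hd i) h2 h3
  refine ⟨h1, fun h2 h3 => ?_⟩
  rcases h2 with h2 | h2
  · exact ⟨h2, unirational_sub h2⟩
  · exfalso
    refine not_vanish h2 h1 ?_
    rcases h3 with h3 | h3
    · exact h3
    · exact rc_vanish hnL h3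

end

end Q36.PF
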