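import Pool.Agent.Q36.PF.Np
import Pool.Agent.Q36.GV.Ct
import Pool.Agent.Q36.GV.Tr

/-!
Forms of lower degree on varieties dominated by varieties with maps to products, II.
-/

set_option autoImplicit false
set_option linter.overlappingInstances false
set_option linter.unusedSectionVars false

open Polynomial FF IsDedekindDomain IntermediateField
open Pool.Agent.W602.GT Pool.Agent.W603.LV Pool.Agent.W619.PQ Pool.Agent.W619.TW
  Pool.Agent.Y172 Pool.Agent.Y692.NT Pool.Agent.W619.Y Q36.GV Q36.PT Q36.SD Q36.HB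
open Pool.Agent.W824.PG (cDer cDer_apply)

namespace Q36.PF

section

variable {k K K' : Type} [Field k] [CharZero k] [IsAlgClosed k] [Field K] [Field K'] [Algebra k K] [Algebra k K']

/-- transport of the separation property -/
theorem canSep_equiv (e : K ≃ₐ[k] K') {d m : ℕ} (h : CanSep k K d m) : CanSep k K' d m := by
  intro y E hy hE Ω _ _ ι _ φ c hφ hn hf
  have hy' : IsTranscendenceBasis k fun i => e.symm (y i) := e.symm.isTranscendenceBasis hy
  have hE' : ∀ i j, cDer e.symm (E i) (e.symm (y j)) = if i = j then 1 else 0 := by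
    intro i j
    rw [cDer_apply]
    have h3 : e.symm.symm (e.symm (y j)) = y j := e.apply_symm_apply _
    rw [h3, hE]
    split_ifs <;> simp
  exact h _ _ hy' hE' Ω ι (fun i => (φ i).comp (e : K →ₐ[k] K')) c (fun i j hij => by
      apply hφ
      ext z
      have h2 := congrArg (fun ψ : K →ₐ[k] Ω => ψ (e.symm z)) hij
      simpa using h2) hn (fun f hf' => by
      obtain ⟨η, h2, h3, h4⟩ := hf'
      refine hf (e f) ⟨tForm e η, tForm_pluri e h2, tForm_reg e h3, ?_⟩
      unfold tForm
      rw [h4])

end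

section

variable {k N M : Type} [Field k] [CharZero k] [Field N] [Field M] [Algebra k N] [Algebra k M]
  {s : ℕ} {d : Fin s → ℕ}

/-- the restriction of a subfield -/
noncomputable def resEquiv (φ : N →ₐ[k] M) (F : IntermediateField k M) (h : F ≤ φ.fieldRange) :
    F.comap φ ≃ₐ[k] F :=
  AlgEquiv.ofBijective
    { toFun := fun z => ⟨φ (z : N), z.2⟩
      map_one' := Subtype.ext (map_one φ)
      map_mul' := fun a b => Subtype.ext (map_mul φ _ _)
      map_zero' := Subtype.ext (map_zero φ)
      map_add' := fun a b => Subtype.ext (map_add φ _ _)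
      commutes' := fun c => Subtype.ext (φ.commutes c) }
    ⟨fun a b hab => Subtype.ext (φ.injective (congrArg Subtype.val hab)), fun z => by
      obtain ⟨w, hw⟩ := h z.2
      exact ⟨⟨w, by
        change φ w ∈ F
        change φ w = (z : M) at hw
        rw [hw]
        exact z.2⟩, Subtype.ext hw⟩⟩

theorem resEquiv_apply (φ : N →ₐ[k] M) (F : IntermediateField k M) (h : F ≤ φ.fieldRange)
    (z : F.comap φ) : ((resEquiv φ F h z : F) : M) = φ (z : N) := rfl

theorem res_ess (φ : N →ₐ[k] M) (F : IntermediateField k M) (h : F ≤ φ.fieldRange)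
    [Algebra.EssFiniteType k F] : Algebra.EssFiniteType k (F.comap φ) :=
  Algebra.EssFiniteType.of_surjective (resEquiv φ F h).symm.toAlgHom
    (resEquiv φ F h).symm.surjective

theorem res_trdeg (φ : N →ₐ[k] M) (F : IntermediateField k M) (h : F ≤ φ.fieldRange) :
    Algebra.trdeg k (F.comap φ) = Algebra.trdeg k F := (resEquiv φ F h).trdeg_eq

/-- **The dimension of the image in the product.** -/
theorem indep_of_sup (F : Fin s → IntermediateField k M)
    (hsup : Algebra.trdeg k (⨆ i, F i : IntermediateField k M) = (∑ i, d i : ℕ))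
    (t : ∀ i, Fin (d i) → F i) (ht : ∀ i, IsTranscendenceBasis k (t i)) :
    AlgebraicIndependent k (coords F t) := by
  classical
  let N : IntermediateField k M := ⨆ i, F i
  have hle : ∀ i, F i ≤ N.val.fieldRange := fun i => by
    rw [fieldRange_val]
    exact le_iSup F i
  let F' : Fin s → IntermediateField k N := fun i => (F i).comap N.val
  have hF' : ⨆ i, F' i = ⊤ := by
    apply IntermediateField.map_injective N.val
    rw [IntermediateField.map_iSup, ← AlgHom.fieldRange_eq_map, fieldRange_val]
    refine le_antisymm (iSup_le fun i => ?_) (iSup_le fun i => ?_)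
    · rintro _ ⟨z, -, rfl⟩
      exact z.2
    · refine le_trans ?_ (le_iSup (fun i => (F' i).map N.val) i)
      intro z hz
      exact ⟨⟨z, le_iSup F i hz⟩, hz, rfl⟩
  have halg : Algebra.IsAlgebraic ↥(⨆ i, F' i) N := by
    rw [hF']
    exact ⟨fun x => isAlgebraic_algebraMap (⟨x, IntermediateField.mem_top⟩ :
      (⊤ : IntermediateField k N))⟩
  have h1 := coords_basis F' hsup halg (fun i l => (resEquiv N.val (F i) (hle i)).symm (t i l))
    (fun i => (resEquiv N.val (F i) (hle i)).symm.isTranscendenceBasis (ht i))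
  have h2 := h1.1.map' (f := N.val) N.val.injective
  have h3 : (N.val ∘ coords F' fun i l => (resEquiv N.val (F i) (hle i)).symm (t i l)) =
      coords F t := by
    funext b
    change N.val _ = _
    unfold coords
    have h4 := resEquiv_apply N.val (F (finSigmaFinEquiv.symm b).1) (hle _)
      ((resEquiv N.val _ (hle _)).symm
        (t (finSigmaFinEquiv.symm b).1 (finSigmaFinEquiv.symm b).2))
    rw [AlgEquiv.apply_symm_apply] at h4
    exact h4.symm
  rw [h3] at h2
  exact h2

end

section

variable {k L M : Type} [Field k] [CharZero k] [IsAlgClosed k] [Field L] [Field M]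
  [Algebra k L] [Algebra k M] [Algebra L M] [IsScalarTower k L M] [FiniteDimensional L M]
  [Algebra.EssFiniteType k L] {s : ℕ} {d : Fin s → ℕ} (F : Fin s → IntermediateField k M)
  [∀ i, Algebra.EssFiniteType k (F i)] {n : ℕ}

/-- **Forms of lower degree.** -/
theorem form_pos (hn : Algebra.trdeg k L = n) (hd : ∀ i, Algebra.trdeg k (F i) = d i)
    (hsup : Algebra.trdeg k (⨆ i, F i : IntermediateField k M) = (∑ i, d i : ℕ))
    {m : Fin s → ℕ} (hm1 : ∀ i, 1 ≤ m i) (hV : ∀ i, CanSep k (F i) (d i) (m i))
    (B : Finset (Fin s))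
    (hB : ∀ i ∈ B, Module.finrank L (IntermediateField.adjoin L (F i : Set M)) ≤ m i)
    (hQ : ∀ Q : Finset (Fin s), Disjoint Q B →
      Module.finrank (IntermediateField.adjoin L {z : M | ∃ j, j ∉ Q ∧ z ∈ F j}) M ≤
        (1 + ∑ j ∈ Q, (m j - 1)) *
          Module.finrank (IntermediateField.adjoin L {z : M | ∃ j, z ∈ F j}) M) :
    HasForm k L n (∑ i, d i) := by
  classical
  let E1 : IntermediateField L M := IntermediateField.adjoin L {z : M | ∃ j, z ∈ F j}
  have itow : IsScalarTower k E1 M := IsScalarTower.of_algebraMap_eq fun c => rfl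
  let φ : E1 →ₐ[k] M := IsScalarTower.toAlgHom k E1 M
  have hle : ∀ i, F i ≤ φ.fieldRange := fun i z hz =>
    ⟨⟨z, subset_adjoin L _ ⟨i, hz⟩⟩, rfl⟩
  let F' : Fin s → IntermediateField k E1 := fun i => (F i).comap φ
  have hess : ∀ i, Algebra.EssFiniteType k (F' i) := fun i => res_ess φ (F i) (hle i)
  have himg : ∀ i, algebraMap E1 M '' (F' i : Set E1) = (F i : Set M) := by
    intro i
    ext z
    constructor
    · rintro ⟨w, hw, rfl⟩
      exact hw
    · intro hz
      obtain ⟨w, hw⟩ := hle i hz
      refine ⟨w, ?_, hw⟩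
      change φ w ∈ F i
      change φ w = z at hw
      rw [hw]
      exact hz
  have himg2 : ∀ Q : Finset (Fin s), algebraMap E1 M '' {z : E1 | ∃ j, j ∉ Q ∧ z ∈ F' j} =
      {z : M | ∃ j, j ∉ Q ∧ z ∈ F j} := by
    intro Q
    ext z
    constructor
    · rintro ⟨w, ⟨j, hj, hw⟩, rfl⟩
      exact ⟨j, hj, hw⟩
    · rintro ⟨j, hj, hz⟩
      obtain ⟨w, hw⟩ := hle j hz
      refine ⟨w, ⟨j, hj, ?_⟩, hw⟩
      change φ w ∈ F j
      change φ w = z at hw
      rw [hw]
      exact hz
  have hcz : CharZero L := charZero_of_injective_algebraMap (algebraMap k L).injective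
  refine form_pos1 (L := L) (M := E1) F' hn (fun i => ?_) (fun t ht => ?_) hm1 (fun i => ?_) B
    (fun i hi => ?_) (fun Q hQB => ?_)
  · rw [← hd i]
    exact res_trdeg φ (F i) (hle i)
  · have h1 := indep_of_sup F hsup (fun i l => resEquiv φ (F i) (hle i) (t i l))
      (fun i => (resEquiv φ (F i) (hle i)).isTranscendenceBasis (ht i))
    have h2 : coords F (fun i l => resEquiv φ (F i) (hle i) (t i l)) = φ ∘ coords F' t := rfl
    rw [h2] at h1
    exact h1.of_comp φ
  · exact canSep_equiv (resEquiv φ (F i) (hle i)).symm (hV i)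
  · rw [finrank_map (M := M), himg]
    exact hB i hi
  · have h1 := hQ Q hQB
    have h2 := finrank_map (K := L) (M := M) {z : E1 | ∃ j, j ∉ Q ∧ z ∈ F' j}
    rw [himg2] at h2
    have h3 := Module.finrank_mul_finrank L
      (IntermediateField.adjoin L {z : E1 | ∃ j, j ∉ Q ∧ z ∈ F' j}) E1
    have h4 := Module.finrank_mul_finrank L
      (IntermediateField.adjoin L {z : M | ∃ j, j ∉ Q ∧ z ∈ F j}) M
    have h5 := Module.finrank_mul_finrank L E1 M
    have h6 : 0 < Module.finrank L
      (IntermediateField.adjoin L {z : M | ∃ j, j ∉ Q ∧ z ∈ F j}) := Module.finrank_pos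
    have h7 : 0 < Module.finrank E1 M := Module.finrank_pos
    rw [h2] at h3
    have h8 : Module.finrank (IntermediateField.adjoin L {z : E1 | ∃ j, j ∉ Q ∧ z ∈ F' j}) E1 *
        Module.finrank E1 M =
        Module.finrank (IntermediateField.adjoin L {z : M | ∃ j, j ∉ Q ∧ z ∈ F j}) M := by
      apply Nat.eq_of_mul_eq_mul_left h6
      rw [← mul_assoc, h3, h5, h4]
    rw [← h8] at h1
    exact Nat.le_of_mul_le_mul_right h1 h7

end

end Q36.PF
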