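import Pool.Agent.Q36.PF.Np

/-!
Pull-backs of tensor differentials.
-/

set_option autoImplicit false
set_option linter.overlappingInstances false
set_option linter.unusedSectionVars false

open Polynomial FF IsDedekindDomain IntermediateField
open Pool.Agent.W602.GT Pool.Agent.W603.LV Pool.Agent.W619.PQ Pool.Agent.W619.TW
  Pool.Agent.Y172 Pool.Agent.Y692.NT Pool.Agent.W619.Y Q36.GV Q36.PT Q36.SD Q36.HB

namespace Q36.PF

section

variable {k K N : Type} [Field k] [CharZero k] [Field K] [Field N] [Algebra k K] [Algebra k N]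
  [Algebra K N] [IsScalarTower k K N] {n p : ℕ}

/-- evaluation of vector fields -/
def evl (z : N) : Derivation k N N →ₗ[N] N where
  toFun D := D z
  map_add' _ _ := rfl
  map_smul' _ _ := rfl

/-- the pull-back of a tensor differential -/
noncomputable def pb (y : Fin n → K) (E : Fin n → Derivation k K K)
    (ω : MultilinearMap K (fun _ : Fin p => Derivation k K K) K) :
    MultilinearMap N (fun _ : Fin p => Derivation k N N) N :=
  ∑ r : Fin p → Fin n, algebraMap K N (ω fun a => E (r a)) •
    (MultilinearMap.mkPiAlgebra N (Fin p) N).compLinearMap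
      fun a => evl (k := k) (algebraMap K N (y (r a)))

theorem pb_apply (y : Fin n → K) (E : Fin n → Derivation k K K)
    (ω : MultilinearMap K (fun _ : Fin p => Derivation k K K) K)
    (G : Fin p → Derivation k N N) :
    pb y E ω G = ∑ r : Fin p → Fin n, algebraMap K N (ω fun a => E (r a)) *
      ∏ a, G a (algebraMap K N (y (r a))) := by
  unfold pb
  rw [MultilinearMap.sum_apply]
  rfl

/-- the value of the pull-back -/
theorem pb_eval {y : Fin n → K} {E : Fin n → Derivation k K K} (hy : IsTranscendenceBasis k y)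
    (hE : ∀ i j, E i (y j) = if i = j then 1 else 0)
    (ω : MultilinearMap K (fun _ : Fin p => Derivation k K K) K)
    {ι : Type} [Fintype ι] [DecidableEq ι] (D : ι → Derivation k K K)
    (G : Fin p → Derivation k N N) (c : Fin p → ι → N)
    (h : ∀ a (f : K), G a (algebraMap K N f) = ∑ j, c a j * algebraMap K N (D j f)) :
    pb y E ω G = ∑ r : Fin p → ι, (∏ a, c a (r a)) * algebraMap K N (ω fun a => D (r a)) := by
  classical
  rw [pb_apply]
  have h1 : ∀ r : Fin p → ι, ω (fun a => D (r a)) =
      ∑ q : Fin p → Fin n, (∏ a, D (r a) (y (q a))) * ω fun a => E (q a) := by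
    intro r
    have h2 : (fun a => D (r a)) = fun a => ∑ j, D (r a) (y j) • E j := by
      funext a
      exact (Pool.Agent.W73.PG.PULL.expand y hy E hE (D (r a))).symm
    rw [h2, MultilinearMap.map_sum]
    refine Finset.sum_congr rfl fun q _ => ?_
    rw [MultilinearMap.map_smul_univ, smul_eq_mul]
  have h3 : ∀ q : Fin p → Fin n, ∏ a, G a (algebraMap K N (y (q a))) =
      ∑ r : Fin p → ι, ∏ a, (c a (r a) * algebraMap K N (D (r a) (y (q a)))) := by
    intro q
    rw [Finset.prod_congr rfl fun a _ => h a (y (q a)), Finset.prod_univ_sum]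
    rw [Fintype.piFinset_univ]
  rw [Finset.sum_congr rfl fun q _ => by rw [h3 q]]
  simp_rw [Finset.mul_sum]
  rw [Finset.sum_comm]
  refine Finset.sum_congr rfl fun r _ => ?_
  rw [h1 r, map_sum, Finset.mul_sum]
  refine Finset.sum_congr rfl fun q _ => ?_
  rw [Finset.prod_mul_distrib, map_mul, map_prod]
  ring

/-- **The pull-back of a regular tensor differential is regular.** -/
theorem pb_reg [Algebra.EssFiniteType k K] (hn : Algebra.trdeg k K = n) {ν : ℕ}
    (hν : Algebra.trdeg k N = ν) {y : Fin n → K} {E : Fin n → Derivation k K K}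
    (hy : IsTranscendenceBasis k y) (hE : ∀ i j, E i (y j) = if i = j then 1 else 0)
    (ω : MultilinearMap K (fun _ : Fin p => Derivation k K K) K)
    (hω : ∀ v : Place k K, IsDivisorial v n → ∀ D : Fin p → Derivation k K K,
      (∀ j, ∀ f, v.Reg f → v.Reg (D j f)) → v.Reg (ω D))
    (w : Place k N) (hw : IsDivisorial w ν) (G : Fin p → Derivation k N N)
    (hG : ∀ j, ∀ f, w.Reg f → w.Reg (G j f)) : w.Reg (pb y E ω G) := by
  classical
  by_cases htriv : ∃ f : K, w.ord (algebraMap K N f) ≠ 0
  · obtain ⟨e, u, hu⟩ := exists_over (K := K) w htriv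
    have hdiv : IsDivisorial u n := pDIVR.{0, 0} k K N n ν u w e hn hν hu hw
    obtain ⟨y', E', i0, hl⟩ := exists_loc hn hdiv
    rw [pb_eval hy hE ω E' G (fun a j => G a (algebraMap K N (y' j))) (fun a f => by
      rw [Pool.Agent.W308.PG.YLOC.expand y' E' hl.bas hl.dual (G a) f]
      refine Finset.sum_congr rfl fun c _ => ?_
      rw [mul_comm])]
    have hreg : ∀ f : K, u.Reg f → w.Reg (algebraMap K N f) := fun f hf => by
      have h9 := (Pool.Agent.Y172.over_ge hu (c := 0) (f := f)).2 hf
      rw [mul_zero] at h9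
      exact h9
    refine Ge.sum _ _ fun r _ => ?_
    refine w.reg_mul ?_ (hreg _ (hω u hdiv _ fun j f hf => hl.pres _ f hf))
    have h2 : Ge w (∑ _a : Fin p, (0 : ℤ)) (∏ a, G a (algebraMap K N (y' (r a)))) :=
      Ge.prod _ _ _ fun a _ => hG a _ (hreg _ (hl.reg _))
    rw [Finset.sum_const_zero] at h2
    exact h2
  · push Not at htriv
    rw [pb_apply]
    refine Ge.sum _ _ fun r _ => ?_
    refine w.reg_mul (Or.inr (htriv _).ge) ?_
    have h2 : Ge w (∑ _a : Fin p, (0 : ℤ)) (∏ a, G a (algebraMap K N (y (r a)))) :=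
      Ge.prod _ _ _ fun a _ => hG a _ (Or.inr (htriv _).ge)
    rw [Finset.sum_const_zero] at h2
    exact h2

end

end Q36.PF
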