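import Pool.Agent.Q36.PF.Rv
import Pool.Agent.Q36.PF.Nq

/-!
Rationally connected varieties have no tensor differentials.
-/

set_option autoImplicit false
set_option linter.overlappingInstances false
set_option linter.unusedSectionVars false

open Polynomial FF IsDedekindDomain IntermediateField
open Pool.Agent.W602.GT Pool.Agent.W603.LV Pool.Agent.W619.PQ Pool.Agent.W619.TW
  Pool.Agent.Y172 Pool.Agent.Y692.NT Pool.Agent.W619.Y Q36.GV Q36.PT Q36.SD Q36.HB

namespace Q36.PF

section

variable {k K R S : Type} [Field k] [CharZero k] [Field K] [Field R] [Field S] [Algebra k K]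
  [Algebra k R] [Algebra k S] {n m p : ℕ}

/-- the pull-back along a homomorphism -/
noncomputable def pbh (φ : K →ₐ[k] S) (y : Fin n → K) (E : Fin n → Derivation k K K)
    (ω : MultilinearMap K (fun _ : Fin p => Derivation k K K) K)
    (G : Fin p → Derivation k S S) : S :=
  ∑ r : Fin p → Fin n, φ (ω fun a => E (r a)) * ∏ a, G a (φ (y (r a)))

theorem pbh_chain (φ : K →ₐ[k] R) (ψ : R →ₐ[k] S) (y : Fin n → K)
    (E : Fin n → Derivation k K K)
    (ω : MultilinearMap K (fun _ : Fin p => Derivation k K K) K) {x : Fin m → R}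
    {E' : Fin m → Derivation k R R} (hx : IsTranscendenceBasis k x)
    (hE' : ∀ i j, E' i (x j) = if i = j then 1 else 0) (G : Fin p → Derivation k S S) :
    pbh (ψ.comp φ) y E ω G =
      ∑ s : Fin p → Fin m, ψ (pbh φ y E ω fun a => E' (s a)) * ∏ a, G a (ψ (x (s a))) := by
  classical
  let _ : Algebra R S := ψ.toRingHom.toAlgebra
  have t1 : IsScalarTower k R S := IsScalarTower.of_algebraMap_eq fun c => (ψ.commutes c).symm
  have h1 : ∀ a (f : R), G a (ψ f) = ∑ j, ψ (E' j f) * G a (ψ (x j)) := fun a f =>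
    Pool.Agent.W308.PG.YLOC.expand x E' hx hE' (G a) f
  have h3 : ∀ r : Fin p → Fin n, ∏ a, G a (ψ (φ (y (r a)))) =
      ∑ s : Fin p → Fin m, ∏ a, (ψ (E' (s a) (φ (y (r a)))) * G a (ψ (x (s a)))) := by
    intro r
    rw [Finset.prod_congr rfl fun a _ => h1 a (φ (y (r a))), Finset.prod_univ_sum,
      Fintype.piFinset_univ]
  have h4 : pbh (ψ.comp φ) y E ω G = ∑ r : Fin p → Fin n,
      ψ (φ (ω fun a => E (r a))) * ∏ a, G a (ψ (φ (y (r a)))) := rfl
  rw [h4, Finset.sum_congr rfl fun r _ => by rw [h3 r]]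
  simp_rw [Finset.mul_sum]
  rw [Finset.sum_comm]
  refine Finset.sum_congr rfl fun s _ => ?_
  unfold pbh
  rw [map_sum, Finset.sum_mul]
  refine Finset.sum_congr rfl fun r _ => ?_
  rw [Finset.prod_mul_distrib, map_mul, map_prod]
  ring

/-- a form is zero if it vanishes on the frame -/
theorem zero_of_frame {y : Fin n → K} {E : Fin n → Derivation k K K}
    (hy : IsTranscendenceBasis k y) (hE : ∀ i j, E i (y j) = if i = j then 1 else 0)
    (ω : MultilinearMap K (fun _ : Fin p => Derivation k K K) K)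
    (h : ∀ r : Fin p → Fin n, ω (fun a => E (r a)) = 0) : ω = 0 := by
  classical
  ext D
  have h2 : D = fun a => ∑ j, D a (y j) • E j := by
    funext a
    exact (Pool.Agent.W73.PG.PULL.expand y hy E hE (D a)).symm
  rw [h2, MultilinearMap.map_sum]
  refine Finset.sum_eq_zero fun r _ => ?_
  rw [MultilinearMap.map_smul_univ, h r, smul_zero]

end

/-- **Rationally connected varieties**: there is a family of rational curves, parametrised by a
variety with function field `V`, such that two general points of the variety are on a curve of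
the family. -/
def RatConn (k K : Type) [Field k] [Field K] [Algebra k K] (n : ℕ) : Prop :=
  ∃ (V : Type) (_ : Field V) (_ : Algebra k V) (q : ℕ), Algebra.EssFiniteType k V ∧
    Algebra.trdeg k V = q ∧ ∃ (u : K →ₐ[k] RatFunc V)
      (u₁ u₂ : RatFunc V →ₐ[k] RatFunc (RatFunc V)),
      (∀ f, u₁ f = RatFunc.C f) ∧ (∀ a, u₂ (RatFunc.C a) = RatFunc.C (RatFunc.C a)) ∧
      u₂ RatFunc.X = RatFunc.X ∧
      Algebra.trdeg k ((u₁.comp u).fieldRange ⊔ (u₂.comp u).fieldRange :
        IntermediateField k (RatFunc (RatFunc V))) = (n + n : ℕ)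

section

variable {k K : Type} [Field k] [CharZero k] [Field K] [Algebra k K]
  [Algebra.EssFiniteType k K] {n : ℕ}

/-- **Rationally connected varieties have no tensor differentials.** -/
theorem rc_vanish (hn : Algebra.trdeg k K = n) (h : RatConn k K n) : TensorVanish k K n := by
  classical
  obtain ⟨V, _, _, q, -, hq, u, u₁, u₂, h1, h2, h3, h4⟩ := h
  intro p hp ω hω
  obtain ⟨y, E, hy, hE⟩ := Pool.Agent.Y172.exists_crd (k := k) (K := K) hn
  refine zero_of_frame hy hE ω fun r => ?_
  have hcz : CharZero V := charZero_of_injective_algebraMap (algebraMap k V).injective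
  -- the frame on `V(t)`
  obtain ⟨v, hv⟩ := Pool.Agent.W619.Y.exists_fin_basis (k := k) q hq
  obtain ⟨E', hE'⟩ := Pool.Agent.W636.PG.exists_duals k (RatFunc V) (q + 1) (rx v) (rx_basis hv)
  -- the pull-back to `V(t)`
  let _ : Algebra K (RatFunc V) := u.toRingHom.toAlgebra
  have t1 : IsScalarTower k K (RatFunc V) := IsScalarTower.of_algebraMap_eq fun c =>
    (u.commutes c).symm
  have hreg := pb_reg (N := RatFunc V) hn (rx_trdeg hq) hy hE ω hω
  have hval : ∀ G : Fin p → Derivation k (RatFunc V) (RatFunc V),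
      pb y E ω G = pbh u y E ω G := fun G => by
    rw [pb_apply]
    rfl
  have hmain := fun s : Fin p → Fin (q + 1) => rt_main hq (pb y E ω) hreg hv hE' s
  -- the two pull-backs agree
  have hagree : ∀ G : Fin p → Derivation k (RatFunc (RatFunc V)) (RatFunc (RatFunc V)),
      pbh (u₁.comp u) y E ω G = pbh (u₂.comp u) y E ω G := by
    intro G
    rw [pbh_chain u u₁ y E ω (rx_basis hv) hE', pbh_chain u u₂ y E ω (rx_basis hv) hE']
    refine Finset.sum_congr rfl fun s _ => ?_
    obtain ⟨⟨c, hc⟩, h0⟩ := hmain s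
    rw [hval] at hc h0
    by_cases hs : ∃ a, s a = Fin.last q
    · rw [h0 hs, map_zero, map_zero, zero_mul, zero_mul]
    · push Not at hs
      rw [hc]
      have e0 : ∀ a : V, u₁ (algebraMap V (RatFunc V) a) = u₂ (algebraMap V (RatFunc V) a) :=
        fun a => by
          have : algebraMap V (RatFunc V) a = RatFunc.C a := rfl
          rw [this, h1, h2]
      rw [e0 c]
      congr 1
      refine Finset.prod_congr rfl fun a _ => ?_
      obtain ⟨i, hi⟩ : ∃ i : Fin q, s a = Fin.castSucc i :=
        ⟨(s a).castPred (hs a), (Fin.castSucc_castPred _ _).symm⟩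
      rw [hi, rx_cast, e0]
  -- the independence
  let F : Fin 2 → IntermediateField k (RatFunc (RatFunc V)) :=
    ![(u₁.comp u).fieldRange, (u₂.comp u).fieldRange]
  let φ : ∀ i, K ≃ₐ[k] F i := fun i => Fin.cases (AlgEquiv.ofInjectiveField (u₁.comp u))
    (fun j => Fin.cases (AlgEquiv.ofInjectiveField (u₂.comp u)) (fun l => l.elim0) j) i
  have hsup : (⨆ i, F i) = (u₁.comp u).fieldRange ⊔ (u₂.comp u).fieldRange := by
    apply le_antisymm
    · refine iSup_le fun i => ?_
      fin_cases i
      · exact le_sup_left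
      · exact le_sup_right
    · exact sup_le (le_iSup F 0) (le_iSup F 1)
  have hind := indep_of_sup (d := fun _ : Fin 2 => n) F (by
    rw [hsup, h4, Fin.sum_univ_two]) (fun i l => φ i (y l)) (fun i => (φ i).isTranscendenceBasis hy)
  have hR2 : Algebra.trdeg k (RatFunc (RatFunc V)) = (q + 1 + 1 : ℕ) := rx_trdeg (rx_trdeg hq)
  obtain ⟨z, hz, g, hg, hgz⟩ := extend_basis hR2 hind
  obtain ⟨G, hG⟩ := Pool.Agent.W636.PG.exists_duals k _ (q + 1 + 1) z hz
  have hc1 : ∀ l, coords F (fun i l => φ i (y l)) (finSigmaFinEquiv ⟨0, l⟩) =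
      u₁ (u (y l)) := by
    intro l
    unfold coords
    rw [Equiv.symm_apply_apply]
    rfl
  have hc2 : ∀ l, coords F (fun i l => φ i (y l)) (finSigmaFinEquiv ⟨1, l⟩) =
      u₂ (u (y l)) := by
    intro l
    unfold coords
    rw [Equiv.symm_apply_apply]
    rfl
  have key := hagree fun a => G (g (finSigmaFinEquiv ⟨0, r a⟩))
  have hG1 : ∀ a l, G (g (finSigmaFinEquiv ⟨0, r a⟩)) (u₁ (u (y l))) =
      if r a = l then 1 else 0 := by
    intro a l
    rw [← hc1, ← hgz, hG]
    by_cases hal : r a = l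
    · rw [if_pos hal, if_pos (by rw [hal])]
    · rw [if_neg hal, if_neg]
      intro h5
      have h6 := finSigmaFinEquiv.injective (hg h5)
      simp only [Sigma.mk.injEq, heq_eq_eq, true_and] at h6
      exact hal h6
  have hG2 : ∀ a l, G (g (finSigmaFinEquiv ⟨0, r a⟩)) (u₂ (u (y l))) = 0 := by
    intro a l
    rw [← hc2, ← hgz, hG, if_neg]
    intro h5
    have h6 := finSigmaFinEquiv.injective (hg h5)
    simp only [Sigma.mk.injEq] at h6
    exact absurd h6.1 (by decide)
  have e1 : pbh (u₁.comp u) y E ω (fun a => G (g (finSigmaFinEquiv ⟨0, r a⟩))) =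
      u₁ (u (ω fun a => E (r a))) := by
    unfold pbh
    rw [Finset.sum_eq_single r]
    · change u₁ (u _) * ∏ a, G (g (finSigmaFinEquiv ⟨0, r a⟩)) (u₁ (u (y (r a)))) = _
      rw [Finset.prod_congr rfl fun a _ => hG1 a (r a)]
      simp
    · intro s _ hs
      obtain ⟨a, ha⟩ : ∃ a, r a ≠ s a := by
        by_contra hcon
        push Not at hcon
        exact hs (funext fun a => (hcon a).symm)
      have h5 : ∏ a, G (g (finSigmaFinEquiv ⟨0, r a⟩)) ((u₁.comp u) (y (s a))) = 0 := by
        refine Finset.prod_eq_zero (Finset.mem_univ a) ?_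
        change G (g (finSigmaFinEquiv ⟨0, r a⟩)) (u₁ (u (y (s a)))) = 0
        rw [hG1, if_neg ha]
      rw [h5, mul_zero]
    · intro h
      exact absurd (Finset.mem_univ r) h
  have e2 : pbh (u₂.comp u) y E ω (fun a => G (g (finSigmaFinEquiv ⟨0, r a⟩))) = 0 := by
    unfold pbh
    refine Finset.sum_eq_zero fun s _ => ?_
    have h5 : ∏ a, G (g (finSigmaFinEquiv ⟨0, r a⟩)) ((u₂.comp u) (y (s a))) = 0 := by
      refine Finset.prod_eq_zero (Finset.mem_univ (⟨0, hp⟩ : Fin p)) ?_
      exact hG2 _ _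
    rw [h5, mul_zero]
  rw [e1, e2] at key
  rw [map_eq_zero, map_eq_zero] at key
  exact key

end

end Q36.PF
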