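import Pool.Agent.Q36.PF.Pb

/-!
Tensor differentials on products with a line.
-/

set_option autoImplicit false
set_option linter.overlappingInstances false
set_option linter.unusedSectionVars false

open Polynomial FF IsDedekindDomain IntermediateField
open Pool.Agent.W602.GT Pool.Agent.W603.LV Pool.Agent.W619.PQ Pool.Agent.W619.TW
  Pool.Agent.Y172 Pool.Agent.Y692.NT Pool.Agent.W619.Y Q36.GV Q36.PT Q36.SD Q36.HB

namespace Q36.PF

section

variable {k V : Type} [Field k] [Field V] [Algebra k V]

/-- a place of `V(t)` over `V` as a place over `k` -/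
def dwn (w : Place V (RatFunc V)) : Place k (RatFunc V) where
  ord := w.ord
  ord_zero := w.ord_zero
  ord_mul := w.ord_mul
  ord_add := w.ord_add
  ord_const := fun {c} hc => by
    rw [IsScalarTower.algebraMap_apply k V (RatFunc V)]
    exact w.ord_const (by simpa using hc)
  surj := w.surj

theorem dwn_div {q : ℕ} (hq : Algebra.trdeg k V = q) (w : Place V (RatFunc V)) :
    IsDivisorial (dwn (k := k) w) (q + 1) := by
  obtain ⟨v, hv⟩ := Pool.Agent.W619.Y.exists_fin_basis (k := k) q hq
  refine ⟨fun i => algebraMap V (RatFunc V) (v i), fun p hp => ?_⟩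
  have h1 : MvPolynomial.aeval (fun i => algebraMap V (RatFunc V) (v i)) p =
      algebraMap V (RatFunc V) (MvPolynomial.aeval v p) := by
    rw [← MvPolynomial.aeval_algebraMap_apply]
    rfl
  have h2 : MvPolynomial.aeval v p ≠ 0 := fun h =>
    hp (hv.1 (by rw [h, map_zero]))
  refine ⟨?_, ?_⟩
  · intro h
    exact h2 ((algebraMap V (RatFunc V)).injective (by rw [map_zero]; exact h1.symm.trans h))
  · have h3 := w.ord_const h2
    change w.ord _ = 0
    rw [← h3]
    exact congrArg w.ord h1

theorem Ge_pow_zero {K : Type} [Field K] [Algebra V K] (w : Place V K) {f : K} (hf : w.Reg f)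
    (i : ℕ) : w.Reg (f ^ i) := by
  induction i with
  | zero => rw [pow_zero]; exact w.reg_one
  | succ i ih => rw [pow_succ]; exact w.reg_mul ih hf

/-- polynomials are regular where the coordinate is -/
theorem reg_poly (w : Place V (RatFunc V)) (hw : w.Reg (RatFunc.X : RatFunc V)) (p : V[X]) :
    w.Reg (algebraMap V[X] (RatFunc V) p) := by
  induction p using Polynomial.induction_on' with
  | add p q hp hq => rw [map_add]; exact w.reg_add hp hq
  | monomial i a =>
    rw [← Polynomial.C_mul_X_pow_eq_monomial, map_mul, map_pow, RatFunc.algebraMap_X]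
    refine w.reg_mul ?_ (Ge_pow_zero w hw i)
    have h1 : algebraMap V[X] (RatFunc V) (Polynomial.C a) = algebraMap V (RatFunc V) a := rfl
    rw [h1]
    exact w.reg_const a

/-- the order of a polynomial at infinity -/
theorem ge_poly (w : Place V (RatFunc V)) (hw : w.ord (RatFunc.X : RatFunc V) < 0) (p : V[X])
    (n : ℕ) (hp : p.natDegree ≤ n) :
    Ge w (n * w.ord (RatFunc.X : RatFunc V)) (algebraMap V[X] (RatFunc V) p) := by
  rw [p.as_sum_range' (n + 1) (by omega), map_sum]
  refine Ge.sum _ _ fun i hi => ?_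
  rw [← Polynomial.C_mul_X_pow_eq_monomial, map_mul, map_pow, RatFunc.algebraMap_X]
  have h1 : algebraMap V[X] (RatFunc V) (Polynomial.C (p.coeff i)) =
    algebraMap V (RatFunc V) (p.coeff i) := rfl
  rw [h1]
  have h2 : Ge w 0 (algebraMap V (RatFunc V) (p.coeff i)) := w.reg_const _
  have h3 : Ge w (i * w.ord (RatFunc.X : RatFunc V)) ((RatFunc.X : RatFunc V) ^ i) := by
    right
    rw [w.ord_pow]
  refine (h2.mul h3).mono ?_
  rw [zero_add]
  have h4 : (i : ℤ) ≤ n := by
    have := Finset.mem_range.1 hi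
    omega
  nlinarith

theorem ord_poly (w : Place V (RatFunc V)) (hw : w.ord (RatFunc.X : RatFunc V) < 0) (p : V[X])
    (hp : p ≠ 0) :
    w.ord (algebraMap V[X] (RatFunc V) p) = p.natDegree * w.ord (RatFunc.X : RatFunc V) := by
  have hX : (RatFunc.X : RatFunc V) ≠ 0 := RatFunc.X_ne_zero
  have hlc : algebraMap V (RatFunc V) p.leadingCoeff ≠ 0 := by
    rw [Ne, map_eq_zero]
    exact Polynomial.leadingCoeff_ne_zero.2 hp
  have h0 : w.ord (algebraMap V (RatFunc V) p.leadingCoeff * (RatFunc.X : RatFunc V) ^ p.natDegree)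
      = p.natDegree * w.ord (RatFunc.X : RatFunc V) := by
    rw [w.ord_mul hlc (pow_ne_zero _ hX), w.ord_const (Polynomial.leadingCoeff_ne_zero.2 hp),
      w.ord_pow, zero_add]
  have h1 : algebraMap V[X] (RatFunc V) p =
      algebraMap V (RatFunc V) p.leadingCoeff * (RatFunc.X : RatFunc V) ^ p.natDegree +
        algebraMap V[X] (RatFunc V) p.eraseLead := by
    conv_lhs => rw [← p.eraseLead_add_C_mul_X_pow]
    rw [map_add, map_mul, map_pow, RatFunc.algebraMap_X, add_comm]
    rfl
  rw [h1]
  by_cases h2 : p.eraseLead = 0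
  · rw [h2, map_zero, add_zero, h0]
  · have h3 : 0 < p.natDegree := by
      by_contra h4
      apply h2
      have h5 : p.natDegree = 0 := by omega
      obtain ⟨c, rfl⟩ := Polynomial.natDegree_eq_zero.1 h5
      exact Polynomial.eraseLead_C c
    have h4 := ge_poly w hw p.eraseLead (p.natDegree - 1)
      (Polynomial.eraseLead_natDegree_le p)
    have h5 : algebraMap V[X] (RatFunc V) p.eraseLead ≠ 0 := by
      rw [Ne, map_eq_zero_iff _ (RatFunc.algebraMap_injective V)]
      exact h2
    have h6 := h4.resolve_left h5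
    rw [← h0]
    refine (w.ord_add_eq (mul_ne_zero hlc (pow_ne_zero _ hX)) h5 ?_).2
    rw [h0]
    refine lt_of_lt_of_le ?_ h6
    push_cast [Nat.cast_sub h3]
    nlinarith

end

section

variable {k V : Type} [Field k] [CharZero k] [Field V] [Algebra k V]

/-- polynomial vector fields are regular on the affine line -/
theorem pres_fin (w : Place V (RatFunc V)) (hw : w.Reg (RatFunc.X : RatFunc V))
    (D : Derivation k (RatFunc V) (RatFunc V))
    (hD : ∀ p : V[X], ∃ q : V[X], D (algebraMap V[X] (RatFunc V) p) = algebraMap V[X] (RatFunc V) q)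
    (f : RatFunc V) (hf : w.Reg f) : w.Reg (D f) := by
  by_cases hf0 : f = 0
  · rw [hf0, map_zero]; exact w.reg_zero
  have hn0 : algebraMap V[X] (RatFunc V) f.num ≠ 0 := by
    rw [Ne, map_eq_zero_iff _ (RatFunc.algebraMap_injective V)]
    exact RatFunc.num_ne_zero hf0
  have hd0 : algebraMap V[X] (RatFunc V) f.denom ≠ 0 := RatFunc.algebraMap_ne_zero f.denom_ne_zero
  have hfe : f = algebraMap V[X] (RatFunc V) f.num / algebraMap V[X] (RatFunc V) f.denom :=
    f.num_div_denom.symm
  have hfo : 0 ≤ w.ord f := hf.resolve_left hf0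
  have h1 := (reg_poly w hw f.num).resolve_left hn0
  have h2 := (reg_poly w hw f.denom).resolve_left hd0
  have h3 : w.ord (algebraMap V[X] (RatFunc V) f.denom) = 0 := by
    by_contra h4
    have h5 : 0 < w.ord (algebraMap V[X] (RatFunc V) f.denom) := by omega
    have h6 : 0 < w.ord (algebraMap V[X] (RatFunc V) f.num) := by
      rw [hfe, w.ord_div hn0 hd0] at hfo
      omega
    obtain ⟨a, b, hab⟩ := f.isCoprime_num_denom
    have h7 := congrArg (algebraMap V[X] (RatFunc V)) hab
    rw [map_add, map_mul, map_mul, map_one] at h7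
    have h8 : Ge w 1 (algebraMap V[X] (RatFunc V) a * algebraMap V[X] (RatFunc V) f.num +
        algebraMap V[X] (RatFunc V) b * algebraMap V[X] (RatFunc V) f.denom) := by
      refine Ge.add ?_ ?_
      · have h9 : Ge w 0 (algebraMap V[X] (RatFunc V) a) := reg_poly w hw a
        have h10 : Ge w 1 (algebraMap V[X] (RatFunc V) f.num) := Or.inr h6
        simpa using h9.mul h10
      · have h9 : Ge w 0 (algebraMap V[X] (RatFunc V) b) := reg_poly w hw b
        have h10 : Ge w 1 (algebraMap V[X] (RatFunc V) f.denom) := Or.inr h5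
        simpa using h9.mul h10
    rw [h7] at h8
    rcases h8 with h8 | h8
    · exact one_ne_zero h8
    · rw [w.ord_one] at h8
      omega
  obtain ⟨qn, hqn⟩ := hD f.num
  obtain ⟨qd, hqd⟩ := hD f.denom
  have h4 : w.Reg (algebraMap V[X] (RatFunc V) f.denom)⁻¹ := by
    right
    rw [w.ord_inv, h3, neg_zero]
  have h5 : D f = algebraMap V[X] (RatFunc V) qn * (algebraMap V[X] (RatFunc V) f.denom)⁻¹ -
      algebraMap V[X] (RatFunc V) f.num * ((algebraMap V[X] (RatFunc V) f.denom)⁻¹ *
        (algebraMap V[X] (RatFunc V) f.denom)⁻¹ * algebraMap V[X] (RatFunc V) qd) := by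
    conv_lhs => rw [hfe]
    rw [div_eq_mul_inv, D.leibniz, D.leibniz_inv, hqn, hqd, smul_eq_mul, smul_eq_mul, smul_eq_mul]
    field_simp
    ring
  rw [h5]
  exact Ge.sub (w.reg_mul (reg_poly w hw _) h4) (w.reg_mul (reg_poly w hw _)
    (w.reg_mul (w.reg_mul h4 h4) (reg_poly w hw _)))

/-- vector fields which do not raise degrees are regular at infinity -/
theorem pres_inf (w : Place V (RatFunc V)) (hw : w.ord (RatFunc.X : RatFunc V) < 0)
    (D : Derivation k (RatFunc V) (RatFunc V))
    (hD : ∀ p : V[X], ∃ q : V[X], q.natDegree ≤ p.natDegree ∧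
      D (algebraMap V[X] (RatFunc V) p) = algebraMap V[X] (RatFunc V) q)
    (f : RatFunc V) (hf : w.Reg f) : w.Reg (D f) := by
  by_cases hf0 : f = 0
  · rw [hf0, map_zero]; exact w.reg_zero
  have key : ∀ p : V[X], p ≠ 0 → Ge w 0 (D (algebraMap V[X] (RatFunc V) p) /
      algebraMap V[X] (RatFunc V) p) := by
    intro p hp
    obtain ⟨q, hq, hDq⟩ := hD p
    have h1 := ge_poly w hw q p.natDegree hq
    rw [hDq]
    have h2 := ge_div (RatFunc.algebraMap_ne_zero hp) h1
    rw [ord_poly w hw p hp, sub_self] at h2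
    exact h2
  have hn0 : algebraMap V[X] (RatFunc V) f.num ≠ 0 :=
    RatFunc.algebraMap_ne_zero (RatFunc.num_ne_zero hf0)
  have hd0 : algebraMap V[X] (RatFunc V) f.denom ≠ 0 := RatFunc.algebraMap_ne_zero f.denom_ne_zero
  have hfe : f = algebraMap V[X] (RatFunc V) f.num / algebraMap V[X] (RatFunc V) f.denom :=
    f.num_div_denom.symm
  have h5 : D f = (D (algebraMap V[X] (RatFunc V) f.num) / algebraMap V[X] (RatFunc V) f.num -
      D (algebraMap V[X] (RatFunc V) f.denom) / algebraMap V[X] (RatFunc V) f.denom) * f := by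
    have h6 : D f = D (algebraMap V[X] (RatFunc V) f.num) *
        (algebraMap V[X] (RatFunc V) f.denom)⁻¹ -
      algebraMap V[X] (RatFunc V) f.num * ((algebraMap V[X] (RatFunc V) f.denom)⁻¹ *
        (algebraMap V[X] (RatFunc V) f.denom)⁻¹ * D (algebraMap V[X] (RatFunc V) f.denom)) := by
      conv_lhs => rw [hfe]
      rw [div_eq_mul_inv, D.leibniz, D.leibniz_inv, smul_eq_mul, smul_eq_mul, smul_eq_mul]
      field_simp
      ring
    have h7 : (D (algebraMap V[X] (RatFunc V) f.num) / algebraMap V[X] (RatFunc V) f.num -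
        D (algebraMap V[X] (RatFunc V) f.denom) / algebraMap V[X] (RatFunc V) f.denom) * f =
        (D (algebraMap V[X] (RatFunc V) f.num) / algebraMap V[X] (RatFunc V) f.num -
        D (algebraMap V[X] (RatFunc V) f.denom) / algebraMap V[X] (RatFunc V) f.denom) *
        (algebraMap V[X] (RatFunc V) f.num / algebraMap V[X] (RatFunc V) f.denom) := by
      rw [← hfe]
    rw [h6, h7]
    field_simp
  rw [h5]
  have h6 := ((key _ (RatFunc.num_ne_zero hf0)).sub (key _ f.denom_ne_zero)).mul
    (show Ge w 0 f from hf)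
  rw [add_zero] at h6
  exact h6

end

end Q36.PF
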