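import Pool.Agent.Q36.PF.Rt

/-!
Regular tensor differentials on products with a line come from the factor.
-/

set_option autoImplicit false
set_option linter.overlappingInstances false
set_option linter.unusedSectionVars false

open Polynomial FF IsDedekindDomain IntermediateField
open Pool.Agent.W602.GT Pool.Agent.W603.LV Pool.Agent.W619.PQ Pool.Agent.W619.TW
  Pool.Agent.Y172 Pool.Agent.Y692.NT Pool.Agent.W619.Y Q36.GV Q36.PT Q36.SD Q36.HB

namespace Q36.PF

section

variable {k V : Type} [Field k] [CharZero k] [Field V] [Algebra k V] {q : ℕ}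

/-- coordinates of `V(t)` -/
noncomputable def rx (v : Fin q → V) : Fin (q + 1) → RatFunc V :=
  fun j => Sum.elim (fun i => algebraMap V (RatFunc V) (v i)) (fun _ : Fin 1 => RatFunc.X)
    (finSumFinEquiv.symm j)

theorem rx_cast (v : Fin q → V) (i : Fin q) :
    rx v (Fin.castSucc i) = algebraMap V (RatFunc V) (v i) := by
  unfold rx
  have h1 : finSumFinEquiv.symm (Fin.castSucc i) = (Sum.inl i : Fin q ⊕ Fin 1) := by
    rw [Equiv.symm_apply_eq]
    rfl
  rw [h1]
  rfl

theorem rx_last (v : Fin q → V) : rx v (Fin.last q) = RatFunc.X := by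
  unfold rx
  have h1 : finSumFinEquiv.symm (Fin.last q) = (Sum.inr 0 : Fin q ⊕ Fin 1) := by
    rw [Equiv.symm_apply_eq]
    rfl
  rw [h1]
  rfl

instance isFF_rat : IsFF V (RatFunc V) := by
  refine IsFF.of_finite (f := (RatFunc.X : RatFunc V)) RatFunc.transcendental_X ?_
  rw [RatFunc.adjoin_X]
  exact Module.Finite.of_surjective (Algebra.linearMap (⊤ : IntermediateField V (RatFunc V))
    (RatFunc V)) fun z => ⟨⟨z, trivial⟩, rfl⟩

theorem rx_basis {v : Fin q → V} (hv : IsTranscendenceBasis k v) :
    IsTranscendenceBasis k (rx v) := by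
  have h1 : IsTranscendenceBasis V (fun _ : Fin 1 => (RatFunc.X : RatFunc V)) := by
    have h2 := IsFF.basis (k := V) (K := RatFunc V) RatFunc.transcendental_X
    exact (isTranscendenceBasis_equiv (Equiv.ofUnique (Fin 1) Unit)).2 h2
  have h2 := hv.sumElim_comp h1
  have h3 := (isTranscendenceBasis_equiv
    ((finSumFinEquiv (m := q) (n := 1)).symm.trans (Equiv.sumComm _ _))).2 h2
  have h4 : rx v = (Sum.elim (fun _ : Fin 1 => (RatFunc.X : RatFunc V))
      (algebraMap V (RatFunc V) ∘ v)) ∘
        ((finSumFinEquiv (m := q) (n := 1)).symm.trans (Equiv.sumComm _ _)) := by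
    funext j
    unfold rx
    simp only [Function.comp_apply, Equiv.trans_apply]
    rcases finSumFinEquiv.symm j with i | i <;> rfl
  rw [h4]
  exact h3

theorem rx_trdeg (hq : Algebra.trdeg k V = q) : Algebra.trdeg k (RatFunc V) = (q + 1 : ℕ) := by
  obtain ⟨v, hv⟩ := Pool.Agent.W619.Y.exists_fin_basis (k := k) q hq
  have h1 := (rx_basis hv).cardinalMk_eq_trdeg
  rw [← h1]
  simp

/-- the values on polynomials -/
theorem der_val (D : Derivation k (RatFunc V) (RatFunc V))
    (hg : ∀ a : V, ∃ b : V, D (algebraMap V (RatFunc V) a) = algebraMap V (RatFunc V) b)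
    {r : V[X]} (hr : D RatFunc.X = algebraMap V[X] (RatFunc V) r) (hr1 : r.natDegree ≤ 1)
    (p : V[X]) : ∃ s : V[X], s.natDegree ≤ p.natDegree ∧
      D (algebraMap V[X] (RatFunc V) p) = algebraMap V[X] (RatFunc V) s := by
  choose g hg using hg
  have hmono : ∀ (i : ℕ) (a : V), ∃ s : V[X], s.natDegree ≤ i ∧
      D (algebraMap V[X] (RatFunc V) (Polynomial.C a * Polynomial.X ^ i)) =
        algebraMap V[X] (RatFunc V) s := by
    intro i a
    refine ⟨Polynomial.C (g a) * Polynomial.X ^ i +
      Polynomial.C a * ((i : V[X]) * Polynomial.X ^ (i - 1) * r), ?_, ?_⟩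
    · refine (Polynomial.natDegree_add_le _ _).trans (max_le ?_ ?_)
      · exact Polynomial.natDegree_C_mul_X_pow_le _ _
      · rcases Nat.eq_zero_or_pos i with rfl | hi
        · simp
        · refine (Polynomial.natDegree_C_mul_le _ _).trans ?_
          refine (Polynomial.natDegree_mul_le).trans ?_
          have h1 : ((i : V[X]) * Polynomial.X ^ (i - 1)).natDegree ≤ i - 1 := by
            have h2 : (i : V[X]) = Polynomial.C (i : V) := by simp
            rw [h2]
            exact Polynomial.natDegree_C_mul_X_pow_le _ _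
          omega
    · have h1 : algebraMap V[X] (RatFunc V) (Polynomial.C a) = algebraMap V (RatFunc V) a := rfl
      have h2 : algebraMap V[X] (RatFunc V) (Polynomial.C (g a)) =
        algebraMap V (RatFunc V) (g a) := rfl
      rw [map_mul, map_pow, RatFunc.algebraMap_X, h1, D.leibniz, D.leibniz_pow, hg, hr, map_add,
        map_mul, map_mul, map_mul, map_mul, map_pow, map_pow, RatFunc.algebraMap_X, h1, h2,
        map_natCast]
      simp only [smul_eq_mul, nsmul_eq_mul]
      ring
  choose! s hs1 hs2 using hmono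
  refine ⟨∑ i ∈ Finset.range (p.natDegree + 1), s i (p.coeff i), ?_, ?_⟩
  · refine Polynomial.natDegree_sum_le_of_forall_le _ _ fun i hi => ?_
    have := Finset.mem_range.1 hi
    exact (hs1 i _).trans (by omega)
  · conv_lhs => rw [p.as_sum_range_C_mul_X_pow]
    rw [map_sum, map_sum, map_sum]
    exact Finset.sum_congr rfl fun i _ => hs2 i _

/-- **Regular tensor differentials on `V × ℙ¹` come from `V`.** -/
theorem rt_main (hq : Algebra.trdeg k V = q) {p : ℕ}
    (η : MultilinearMap (RatFunc V) (fun _ : Fin p => Derivation k (RatFunc V) (RatFunc V))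
      (RatFunc V))
    (hη : ∀ w : Place k (RatFunc V), IsDivisorial w (q + 1) →
      ∀ D : Fin p → Derivation k (RatFunc V) (RatFunc V),
      (∀ j, ∀ f, w.Reg f → w.Reg (D j f)) → w.Reg (η D)) {v : Fin q → V}
    (hv : IsTranscendenceBasis k v)
    {E : Fin (q + 1) → Derivation k (RatFunc V) (RatFunc V)}
    (hE : ∀ i j, E i (rx v j) = if i = j then 1 else 0) (r : Fin p → Fin (q + 1)) :
    (∃ c : V, η (fun a => E (r a)) = algebraMap V (RatFunc V) c) ∧
      ((∃ a, r a = Fin.last q) → η (fun a => E (r a)) = 0) := by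
  classical
  have hcz : CharZero V := charZero_of_injective_algebraMap (algebraMap k V).injective
  obtain ⟨Dv, hDv⟩ := Pool.Agent.W636.PG.exists_duals k V q v hv
  -- the frame on constants
  have hconst : ∀ j, ∀ a : V, ∃ b : V, E j (algebraMap V (RatFunc V) a) =
      algebraMap V (RatFunc V) b := by
    intro j
    refine Fin.lastCases ?_ (fun i => ?_) j
    · intro a
      refine ⟨(0 : Derivation k V V) a, der_comp (0 : Derivation k V V) (E (Fin.last q)) v hv
        (fun i => ?_) a⟩
      have h1 := hE (Fin.last q) (Fin.castSucc i)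
      rw [rx_cast, if_neg (Fin.castSucc_lt_last i).ne'] at h1
      rw [h1]
      exact (map_zero _).symm
    · intro a
      refine ⟨Dv i a, der_comp (Dv i) (E (Fin.castSucc i)) v hv (fun l => ?_) a⟩
      have h1 := hE (Fin.castSucc i) (Fin.castSucc l)
      rw [rx_cast] at h1
      rw [h1, hDv, apply_ite (algebraMap V (RatFunc V)), map_one, map_zero]
      congr 1
      exact propext (Fin.castSucc_injective q).eq_iff
  have hXl : E (Fin.last q) RatFunc.X = 1 := by
    have h1 := hE (Fin.last q) (Fin.last q)
    rwa [rx_last, if_pos rfl] at h1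
  have hXc : ∀ i, E (Fin.castSucc i) RatFunc.X = 0 := by
    intro i
    have h1 := hE (Fin.castSucc i) (Fin.last q)
    rwa [rx_last, if_neg (Fin.castSucc_lt_last i).ne] at h1
  have hEX : ∀ j, ∃ s : V[X], s.natDegree ≤ 1 ∧ E j RatFunc.X = algebraMap V[X] (RatFunc V) s := by
    intro j
    refine Fin.lastCases ?_ (fun i => ?_) j
    · exact ⟨1, by simp, by rw [hXl, map_one]⟩
    · exact ⟨0, by simp, by rw [hXc, map_zero]⟩
  -- the value
  set c := η fun a => E (r a) with hc
  let A : Finset (Fin p) := Finset.univ.filter fun a => r a = Fin.last q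
  have hfin : ∀ w : Place V (RatFunc V), w.Reg (RatFunc.X : RatFunc V) → w.Reg c := by
    intro w hw
    refine hη (dwn w) (dwn_div hq w) _ fun a f hf => ?_
    obtain ⟨s, hs1, hs2⟩ := hEX (r a)
    refine pres_fin w hw (E (r a)) (fun p => ?_) f hf
    obtain ⟨t, -, ht⟩ := der_val (E (r a)) (hconst (r a)) hs2 hs1 p
    exact ⟨t, ht⟩
  have hinf : ∀ w : Place V (RatFunc V), w.ord (RatFunc.X : RatFunc V) < 0 →
      Ge w (-(A.card * w.ord (RatFunc.X : RatFunc V))) c := by
    intro w hw
    have h1 : w.Reg (η fun a => (if r a = Fin.last q then (RatFunc.X : RatFunc V) else 1) •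
        E (r a)) := by
      refine hη (dwn w) (dwn_div hq w) _ fun a f hf => ?_
      by_cases ha : r a = Fin.last q
      · rw [if_pos ha]
        refine pres_inf w hw _ (fun p => ?_) f hf
        refine der_val _ (fun b => ?_) (r := Polynomial.X) ?_ (by simp) p
        · obtain ⟨b', hb'⟩ := hconst (r a) b
          have h3 := hconst (Fin.last q) b
          refine ⟨0, ?_⟩
          rw [ha]
          change (RatFunc.X : RatFunc V) * E (Fin.last q) (algebraMap V (RatFunc V) b) = _
          have h4 : E (Fin.last q) (algebraMap V (RatFunc V) b) = 0 := by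
            have h5 := der_comp (0 : Derivation k V V) (E (Fin.last q)) v hv
              (fun i => by
                have h1 := hE (Fin.last q) (Fin.castSucc i)
                rw [rx_cast, if_neg (Fin.castSucc_lt_last i).ne'] at h1
                rw [h1]
                exact (map_zero _).symm) b
            rw [h5]
            exact map_zero _
          rw [h4, mul_zero, map_zero]
        · rw [ha]
          change (RatFunc.X : RatFunc V) * E (Fin.last q) RatFunc.X = _
          rw [hXl, mul_one, RatFunc.algebraMap_X]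
      · rw [if_neg ha, one_smul]
        refine pres_inf w hw _ (fun p => ?_) f hf
        obtain ⟨s, hs1, hs2⟩ := hEX (r a)
        exact der_val _ (hconst (r a)) hs2 hs1 p
    rw [MultilinearMap.map_smul_univ, smul_eq_mul, Finset.prod_ite, Finset.prod_const,
      Finset.prod_const_one, mul_one] at h1
    by_cases hc0 : c = 0
    · exact Or.inl hc0
    right
    have hX : (RatFunc.X : RatFunc V) ≠ 0 := RatFunc.X_ne_zero
    have h2 := h1.resolve_left (mul_ne_zero (pow_ne_zero _ hX) hc0)
    rw [w.ord_mul (pow_ne_zero _ hX) hc0, w.ord_pow] at h2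
    have h3 : (Finset.univ.filter fun a => r a = Fin.last q).card = A.card := rfl
    rw [h3] at h2
    linarith
  have halg : ∃ b : V, c = algebraMap V (RatFunc V) b := by
    by_contra hcon
    have htr : Transcendental V c := by
      refine RatFunc.transcendental_of_ne_C (K := V) c fun ⟨b, hb⟩ => hcon ⟨b, ?_⟩
      rw [hb]
      rfl
    obtain ⟨S, hS, hS2⟩ := FF.poles (k := V) (K := RatFunc V) htr
    have hemp : S = ∅ := by
      rw [Finset.eq_empty_iff_forall_notMem]
      intro w hw
      have h1 := (hS w).1 hw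
      have hc0 : c ≠ 0 := by
        intro h
        rw [h, w.ord_zero] at h1
        exact lt_irrefl _ h1
      by_cases h2 : w.Reg (RatFunc.X : RatFunc V)
      · have := (hfin w h2).resolve_left hc0
        omega
      · have h3 : w.ord (RatFunc.X : RatFunc V) < 0 := by
          by_contra h4
          exact h2 (Or.inr (by omega))
        have h4 := (hinf w h3).resolve_left hc0
        have h5 : (0 : ℤ) ≤ A.card := by positivity
        nlinarith
    rw [hemp, Finset.sum_empty] at hS2
    have hfd : FiniteDimensional V⟮c⟯ (RatFunc V) := IsFF.finite htr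
    have h3 : 0 < Module.finrank V⟮c⟯ (RatFunc V) := Module.finrank_pos
    omega
  refine ⟨halg, fun ⟨a, ha⟩ => ?_⟩
  obtain ⟨b, hb⟩ := halg
  by_contra hc0
  have hb0 : b ≠ 0 := by
    rintro rfl
    exact hc0 (by rw [hb, map_zero])
  obtain ⟨S, hS, hS2⟩ := FF.poles (k := V) (K := RatFunc V) (f := RatFunc.X)
    RatFunc.transcendental_X
  have hne : S.Nonempty := by
    rw [Finset.nonempty_iff_ne_empty]
    rintro rfl
    rw [Finset.sum_empty] at hS2
    have hfd : FiniteDimensional V⟮(RatFunc.X : RatFunc V)⟯ (RatFunc V) :=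
      IsFF.finite RatFunc.transcendental_X
    have h3 : 0 < Module.finrank V⟮(RatFunc.X : RatFunc V)⟯ (RatFunc V) := Module.finrank_pos
    omega
  obtain ⟨w, hw⟩ := hne
  have h1 := (hS w).1 hw
  have h2 := (hinf w h1).resolve_left hc0
  have h3 : w.ord c = 0 := by
    rw [hb]
    exact w.ord_const hb0
  have h4 : 0 < A.card := Finset.card_pos.2 ⟨a, by simp [A, ha]⟩
  have h5 : (1 : ℤ) ≤ A.card := by exact_mod_cast h4
  rw [h3] at h2
  nlinarith

end

end Q36.PF
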