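import Pool.Agent.Q36.GV.Im

/-!
Traces of forms of lower degree.
-/

set_option autoImplicit false
set_option linter.overlappingInstances false
set_option linter.unusedSectionVars false

open Polynomial FF IsDedekindDomain IntermediateField
open Pool.Agent.W602.GT Pool.Agent.W603.LV Pool.Agent.W619.PQ Pool.Agent.W619.TW
  Pool.Agent.Y172 Pool.Agent.Y692.NT Pool.Agent.W619.Y

namespace Q36.PF

section

variable {k K L : Type} [Field k] [CharZero k] [Field K] [Field L] [Algebra k K] [Algebra k L]
  [Algebra K L] [IsScalarTower k K L] [FiniteDimensional K L] {n : ℕ}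

theorem lift_uniq (hn : Algebra.trdeg k K = n) {D1 D2 : Derivation k L L}
    {D : Derivation k K K} (h1 : ∀ f, D1 (algebraMap K L f) = algebraMap K L (D f))
    (h2 : ∀ f, D2 (algebraMap K L f) = algebraMap K L (D f)) : D1 = D2 := by
  obtain ⟨D', -, h, -⟩ := Pool.Agent.W357.PG.main.{0, 0} k K L n hn D
  rw [h D1 h1, h D2 h2]

/-- the extension of derivations is linear -/
theorem exists_ext (hn : Algebra.trdeg k K = n) :
    ∃ e : Derivation k K K →ₗ[K] Derivation k L L,
      ∀ D f, e D (algebraMap K L f) = algebraMap K L (D f) := by
  choose e he using fun D : Derivation k K K => exists_lift (L := L) hn D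
  refine ⟨{ toFun := e, map_add' := fun D D' => ?_, map_smul' := fun c D => ?_ }, he⟩
  · refine lift_uniq hn (he (D + D')) fun f => ?_
    change e D (algebraMap K L f) + e D' (algebraMap K L f) = _
    rw [he, he, ← map_add]
    rfl
  · refine lift_uniq hn (he (c • D)) fun f => ?_
    change c • e D (algebraMap K L f) = _
    rw [he, Algebra.smul_def, ← map_mul]
    rfl

/-- the trace of the form `g dy₁ ∧ ... ∧ dy_p` -/
noncomputable def ptr (e : Derivation k K K →ₗ[K] Derivation k L L) (g : L) {p : ℕ}
    (y : Fin p → L) : MultilinearMap K (fun _ : Fin p => Derivation k K K) K where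
  toFun D := Algebra.trace K L (g * (Matrix.of fun a b => e (D a) (y b)).det)
  map_update_add' := by
    intro inst D i x z
    obtain rfl : inst = instDecidableEqFin p := Subsingleton.elim _ _
    have e1 : ∀ w : Derivation k K K, (Matrix.of fun a b => e (Function.update D i w a) (y b)) =
        Matrix.updateRow (Matrix.of fun a b => e (D a) (y b)) i fun b => e w (y b) := by
      intro w
      ext a b
      rw [Matrix.of_apply, Matrix.updateRow_apply]
      by_cases ha : a = i
      · subst ha
        rw [if_pos rfl, Function.update_self]
      · rw [if_neg ha, Function.update_of_ne ha, Matrix.of_apply]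
    rw [e1, e1, e1]
    have e2 : (fun b => e (x + z) (y b)) = (fun b => e x (y b)) + fun b => e z (y b) := by
      funext b
      rw [map_add]
      rfl
    rw [e2, Matrix.det_updateRow_add, mul_add, map_add]
  map_update_smul' := by
    intro inst D i c x
    obtain rfl : inst = instDecidableEqFin p := Subsingleton.elim _ _
    have e1 : ∀ w : Derivation k K K, (Matrix.of fun a b => e (Function.update D i w a) (y b)) =
        Matrix.updateRow (Matrix.of fun a b => e (D a) (y b)) i fun b => e w (y b) := by
      intro w
      ext a b
      rw [Matrix.of_apply, Matrix.updateRow_apply]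
      by_cases ha : a = i
      · subst ha
        rw [if_pos rfl, Function.update_self]
      · rw [if_neg ha, Function.update_of_ne ha, Matrix.of_apply]
    rw [e1, e1]
    have e2 : (fun b => e (c • x) (y b)) = algebraMap K L c • fun b => e x (y b) := by
      funext b
      rw [map_smul]
      change c • e x (y b) = algebraMap K L c * e x (y b)
      rw [Algebra.smul_def]
    rw [e2, Matrix.det_updateRow_smul, smul_eq_mul]
    have e3 : ∀ d : L, g * (algebraMap K L c * d) = c • (g * d) := by
      intro d
      rw [Algebra.smul_def]
      ring
    rw [e3, map_smul, smul_eq_mul]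

theorem ptr_apply (e : Derivation k K K →ₗ[K] Derivation k L L) (g : L) {p : ℕ}
    (y : Fin p → L) (D : Fin p → Derivation k K K) :
    ptr e g y D = Algebra.trace K L (g * (Matrix.of fun a b => e (D a) (y b)).det) := rfl

end

section

variable {k K L : Type} [Field k] [CharZero k] [Field K] [Field L] [Algebra k K] [Algebra k L]
  [Algebra K L] [IsScalarTower k K L] [FiniteDimensional K L] [Algebra.EssFiniteType k K]
  [Algebra.EssFiniteType k L] {n : ℕ}

/-- **The trace of a canonical form**, locally. -/
theorem trace_loc (hn : Algebra.trdeg k K = n) {P : Place k K} (hP : Divisorial n P)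
    {yP : Fin n → K} {EP : Fin n → Derivation k K K} {i0 : Fin n} (hl : Loc P yP EP i0)
    {EP' : Fin n → Derivation k L L}
    (hEP' : ∀ i f, EP' i (algebraMap K L f) = algebraMap K L (EP i f))
    {W : (Fin n → Derivation k L L) → L} (hW : IsPluri 1 W)
    (hreg : ∀ (Q : Place k L) (e : ℕ), Over Q P e → RegAt Q W) :
    P.Reg (Algebra.trace K L (W EP')) := by
  have hnL : Algebra.trdeg k L = n := trdeg_up (K := K) hn
  refine Pool.Agent.Y692.NT.trace_reg P (W EP') fun Q e hQ => ?_
  have hQd : Divisorial n Q := divisorial_up hQ hP
  have h1 := down_ge hnL hQ hQd hl hEP' hW (c := 0) (fun G' hG' => by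
    rcases hreg Q e hQ G' hG' with h | h
    · exact Or.inl h
    · exact Or.inr (by exact_mod_cast h))
  rcases h1 with h1 | h1
  · exact Or.inl h1
  · right
    have h2 : ((1 - e : ℤ) : ℝ) ≤ (Q.ord (W EP') : ℝ) := by
      push_cast
      push_cast at h1
      linarith
    exact_mod_cast h2

/-- **The trace of a regular form is regular.** -/
theorem ptr_reg (hn : Algebra.trdeg k K = n) {e : Derivation k K K →ₗ[K] Derivation k L L}
    (he : ∀ D f, e D (algebraMap K L f) = algebraMap K L (D f)) {p : ℕ} {g : L}
    {y : Fin p → L} {P : Place k K} (hP : Divisorial n P)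
    (hreg : ∀ (Q : Place k L) (e : ℕ), Over Q P e → YGood p 1 Q y g)
    (D : Fin p → Derivation k K K) (hD : ∀ a, DerReg P (D a)) : P.Reg (ptr e g y D) := by
  classical
  obtain ⟨yP, EP, i0, hl⟩ := exists_loc hn hP
  -- reduction to the frame
  have hexp : D = fun a => ∑ j, D a (yP j) • EP j := by
    funext a
    exact (Pool.Agent.W73.PG.PULL.expand yP hl.bas EP hl.dual (D a)).symm
  have key : ∀ r : Fin p → Fin n, P.Reg (ptr e g y fun a => EP (r a)) := by
    intro r
    by_cases hr : Function.Injective r
    · -- the canonical form
      let ε : Fin p ⊕ {j // j ∉ Set.range r} ≃ Fin n :=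
        (Equiv.sumCongr (Equiv.ofInjective r hr) (Equiv.refl _)).trans
          (Equiv.Set.sumCompl (Set.range r))
      have hε1 : ∀ a, ε (Sum.inl a) = r a := fun a => rfl
      have hε2 : ∀ c, ε (Sum.inr c) = c.1 := fun c => rfl
      let c : Fin p ⊕ {j // j ∉ Set.range r} → L :=
        Sum.elim y fun j => algebraMap K L (yP j.1)
      let W : (Fin n → Derivation k L L) → L := fun G =>
        g * (Matrix.of fun i j => G (ε i) (c j)).det
      have hW : IsPluri 1 W := by
        intro A G
        change g * _ = A.det ^ 1 * (g * _)
        have e1 : (Matrix.of fun i j => (∑ l, A (ε i) l • G l) (c j)) =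
            (A.submatrix ε ε) * Matrix.of fun i j => G (ε i) (c j) := by
          ext i j
          rw [Matrix.of_apply, Matrix.mul_apply, Pool.Agent.Y172.sum_smul_apply]
          rw [← ε.sum_comp]
          rfl
        rw [e1, Matrix.det_mul, Matrix.det_submatrix_equiv_self, pow_one]
        ring
      have hWr : ∀ (Q : Place k L) (e : ℕ), Over Q P e → RegAt Q W := by
        intro Q e0 hQ G hG
        obtain ⟨Z, z, hz, hZ, hA⟩ := hreg Q e0 hQ
        let c' : Fin p ⊕ {j // j ∉ Set.range r} → L :=
          Sum.elim z fun j => algebraMap K L (yP j.1)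
        have e1 : (Matrix.of fun i j => G (ε i) (c j)) =
            (Matrix.of fun i j => G (ε i) (c' j)) * Matrix.fromBlocks Z.transpose 0 0 1 := by
          ext i j
          rw [Matrix.of_apply, Matrix.mul_apply, Fintype.sum_sum_type]
          rcases j with j | j
          · change G (ε i) (y j) = _
            rw [hZ]
            simp only [Matrix.of_apply, Matrix.fromBlocks_apply₁₁, Matrix.fromBlocks_apply₂₁,
              Matrix.zero_apply, mul_zero, Finset.sum_const_zero, add_zero,
              Matrix.transpose_apply]
            refine Finset.sum_congr rfl fun b _ => ?_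
            rw [mul_comm]
            rfl
          · simp only [Matrix.of_apply, Matrix.fromBlocks_apply₁₂, Matrix.fromBlocks_apply₂₂,
              Matrix.zero_apply, mul_zero, Finset.sum_const_zero, zero_add, Matrix.one_apply,
              mul_ite, mul_one, Finset.sum_ite_eq', Finset.mem_univ, if_true]
            rfl
        have e2 : W G = (g * Z.det ^ 1) * (Matrix.of fun i j => G (ε i) (c' j)).det := by
          change g * _ = _
          rw [e1, Matrix.det_mul, Matrix.det_fromBlocks_zero₁₂, Matrix.det_transpose,
            Matrix.det_one, pow_one]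
          ring
        rw [e2]
        have h3 : Ge Q 0 (Matrix.of fun i j => G (ε i) (c' j)).det := by
          refine Pool.Agent.W619.PQ.ge_det Q _ fun i j => ?_
          rw [Matrix.of_apply]
          refine hG _ _ ?_
          rcases j with j | j
          · exact hz j
          · change Q.Reg (algebraMap K L (yP j.1))
            have h9 := (Pool.Agent.Y172.over_ge hQ (c := 0) (f := yP j.1)).2 (hl.reg j.1)
            rw [mul_zero] at h9
            exact h9
        have h4 := hA.mul h3
        rw [add_zero] at h4
        exact h4
      have h5 := trace_loc (L := L) hn hP hl (EP' := fun i => e (EP i)) (fun i f => he _ _) hW hWr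
      have h6 : W (fun i => e (EP i)) =
          g * (Matrix.of fun a b => e (EP (r a)) (y b)).det := by
        change g * _ = _
        congr 1
        have e1 : (Matrix.of fun i j => e (EP (ε i)) (c j)) =
            Matrix.fromBlocks (Matrix.of fun a b => e (EP (r a)) (y b)) 0
              (Matrix.of fun (a : {j // j ∉ Set.range r}) b => e (EP a.1) (y b)) 1 := by
          ext i j
          rcases i with i | i <;> rcases j with j | j
          · rfl
          · rw [Matrix.of_apply, Matrix.fromBlocks_apply₁₂, Matrix.zero_apply]
            change e (EP (r i)) (algebraMap K L (yP j.1)) = 0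
            rw [he, hl.dual, if_neg, map_zero]
            intro h
            exact j.2 ⟨i, h⟩
          · rfl
          · rw [Matrix.of_apply, Matrix.fromBlocks_apply₂₂, Matrix.one_apply]
            change e (EP i.1) (algebraMap K L (yP j.1)) = _
            rw [he, hl.dual, apply_ite (algebraMap K L), map_one, map_zero]
            congr 1
            exact propext Subtype.ext_iff.symm
        rw [e1, Matrix.det_fromBlocks_zero₁₂, Matrix.det_one, mul_one]
      rw [h6] at h5
      exact h5
    · unfold Function.Injective at hr
      push Not at hr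
      obtain ⟨a, b, hab, hne⟩ := hr
      have h1 : (Matrix.of fun a b => e (EP (r a)) (y b)).det = 0 :=
        Matrix.det_zero_of_row_eq hne (by
          funext j
          rw [Matrix.of_apply, Matrix.of_apply, hab])
      rw [ptr_apply, h1, mul_zero, map_zero]
      exact P.reg_zero
  rw [hexp, MultilinearMap.map_sum]
  refine Ge.sum _ _ fun r _ => ?_
  have h1 : (ptr e g y fun a => D a (yP (r a)) • EP (r a)) =
      (∏ a, D a (yP (r a))) • ptr e g y fun a => EP (r a) :=
    MultilinearMap.map_smul_univ _ _ _
  rw [h1, smul_eq_mul]
  refine P.reg_mul ?_ (key r)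
  have h2 : Ge P (∑ _a : Fin p, (0 : ℤ)) (∏ a, D a (yP (r a))) :=
    Ge.prod _ _ _ fun a _ => hD a _ (hl.reg _)
  rw [Finset.sum_const_zero] at h2
  exact h2

end

end Q36.PF
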